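import Mathlib
import Pool.Agent.WeakLip.Homeo

set_option autoImplicit false

namespace Pool.Agent.Results.MP_a56222_an.SameDensityWeakLip

open Filter Topology Pool.Agent.WeakLip

/-- The vector space of the Lipschitz functions `f : M → ℝ` with `f x₀ = 0`. -/
def lipSub (M : Type) [MetricSpace M] (x₀ : M) : Submodule ℝ (M → ℝ) where
  carrier := {f | (∃ K : NNReal, LipschitzWith K f) ∧ f x₀ = 0}
  add_mem' := by
    rintro f g ⟨⟨K, hK⟩, hf⟩ ⟨⟨L, hL⟩, hg⟩
    exact ⟨⟨K + L, hK.add hL⟩, by simp [hf, hg]⟩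
  zero_mem' := ⟨⟨0, LipschitzWith.const 0⟩, rfl⟩
  smul_mem' := by
    rintro c f ⟨⟨K, hK⟩, hf⟩
    refine ⟨⟨‖c‖₊ * K, ?_⟩, by simp [hf]⟩
    apply LipschitzWith.of_dist_le_mul
    intro x y
    have h := hK.dist_le_mul x y
    rw [Real.dist_eq] at h
    rw [Real.dist_eq, Pi.smul_apply, Pi.smul_apply, smul_eq_mul, smul_eq_mul, ← mul_sub, abs_mul]
    push_cast
    rw [Real.norm_eq_abs, mul_assoc]
    exact mul_le_mul_of_nonneg_left h (abs_nonneg c)

/-- `Lip₀(M)`: the Lipschitz functions `f : M → ℝ` with `f x₀ = 0`. -/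
def Lip0 (M : Type) [MetricSpace M] (x₀ : M) : Type := lipSub M x₀

variable {M : Type} [MetricSpace M] {x₀ : M}

instance : AddCommGroup (Lip0 M x₀) := Submodule.addCommGroup (lipSub M x₀)

instance : Module ℝ (Lip0 M x₀) := Submodule.module (lipSub M x₀)

/-- The norm of `Lip₀(M)` is the Lipschitz constant. -/
noncomputable instance : Norm (Lip0 M x₀) :=
  ⟨fun f => sSup {r : ℝ | ∃ x y : M, x ≠ y ∧ r = |f.1 x - f.1 y| / dist x y}⟩

theorem norm_def (f : Lip0 M x₀) :
    ‖f‖ = sSup {r : ℝ | ∃ x y : M, x ≠ y ∧ r = |f.1 x - f.1 y| / dist x y} := rfl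

theorem norm_nonneg' (f : Lip0 M x₀) : 0 ≤ ‖f‖ := by
  rw [norm_def]
  apply Real.sSup_nonneg
  rintro r ⟨x, y, -, rfl⟩
  positivity

theorem norm_le' (f : Lip0 M x₀) (K : ℝ) (hK : 0 ≤ K)
    (h : ∀ x y : M, |f.1 x - f.1 y| ≤ K * dist x y) : ‖f‖ ≤ K := by
  rw [norm_def]
  apply Real.sSup_le _ hK
  rintro r ⟨x, y, hxy, rfl⟩
  rw [div_le_iff₀ (dist_pos.2 hxy)]
  exact h x y

theorem le_norm (f : Lip0 M x₀) (x y : M) : |f.1 x - f.1 y| ≤ ‖f‖ * dist x y := by
  by_cases hxy : x = y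
  · subst hxy; simp
  · rw [← div_le_iff₀ (dist_pos.2 hxy), norm_def]
    apply le_csSup
    · obtain ⟨K, hK⟩ := f.2.1
      refine ⟨K, ?_⟩
      rintro r ⟨x, y, hxy, rfl⟩
      rw [div_le_iff₀ (dist_pos.2 hxy)]
      have := hK.dist_le_mul x y
      rwa [Real.dist_eq] at this
    · exact ⟨x, y, hxy, rfl⟩

theorem core : NormedSpace.Core ℝ (Lip0 M x₀) where
  norm_nonneg := norm_nonneg'
  norm_smul := by
    have key : ∀ (c : ℝ) (f : Lip0 M x₀), ‖c • f‖ ≤ ‖c‖ * ‖f‖ := by
      intro c f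
      apply norm_le' _ _ (mul_nonneg (norm_nonneg c) (norm_nonneg' f))
      intro x y
      have h : (c • f).1 x - (c • f).1 y = c * (f.1 x - f.1 y) := by
        change c * f.1 x - c * f.1 y = _
        ring
      rw [h, abs_mul, Real.norm_eq_abs, mul_assoc]
      exact mul_le_mul_of_nonneg_left (le_norm f x y) (abs_nonneg c)
    intro c f
    apply le_antisymm (key c f)
    by_cases hc : c = 0
    · subst hc
      rw [norm_zero, zero_mul]
      exact norm_nonneg' _
    · have h1 := key c⁻¹ (c • f)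
      rw [smul_smul, inv_mul_cancel₀ hc, one_smul, norm_inv] at h1
      have h2 : 0 < ‖c‖ := norm_pos_iff.2 hc
      rwa [inv_mul_eq_div, le_div_iff₀ h2, mul_comm] at h1
  norm_triangle := by
    intro f g
    apply norm_le' _ _ (add_nonneg (norm_nonneg' f) (norm_nonneg' g))
    intro x y
    have h : (f + g).1 x - (f + g).1 y = (f.1 x - f.1 y) + (g.1 x - g.1 y) := by
      change (f.1 x + g.1 x) - (f.1 y + g.1 y) = _
      ring
    rw [h, add_mul]
    exact (abs_add_le _ _).trans (add_le_add (le_norm f x y) (le_norm g x y))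
  norm_eq_zero_iff := by
    intro f
    constructor
    · intro h
      apply Subtype.ext
      funext x
      have h1 := le_norm f x x₀
      rw [h, zero_mul, f.2.2, sub_zero] at h1
      exact abs_nonpos_iff.1 h1
    · rintro rfl
      apply le_antisymm _ (norm_nonneg' _)
      apply norm_le' _ _ le_rfl
      intro x y
      change |(0 : ℝ) - 0| ≤ _
      simp

noncomputable instance : NormedAddCommGroup (Lip0 M x₀) := NormedAddCommGroup.ofCore core

noncomputable instance : NormedSpace ℝ (Lip0 M x₀) := NormedSpace.ofCore core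

/-- The density: the least cardinality of a dense subset. -/
noncomputable def density (M : Type) [MetricSpace M] : Cardinal :=
  sInf {c | ∃ S : Set M, Dense S ∧ Cardinal.mk S = c}

/-- the set of `Lip₀` with base point `a`, without the norm -/
abbrev X (M : Type) [MetricSpace M] (a : M) : Type :=
  {f : M → ℝ // (∃ K : NNReal, LipschitzWith K f) ∧ f a = 0}

/-- the weak topology on `X M a`, as in the auxiliary modules -/
@[implicit_reducible]
def tX (M : Type) [MetricSpace M] (a : M) : TopologicalSpace (X M a) :=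
  ⨅ (φ : (M → ℝ) →ₗ[ℝ] ℝ)
    (_ : ∃ C : ℝ, ∀ f : M → ℝ, f a = 0 → ∀ K : NNReal, LipschitzWith K f → |φ f| ≤ C * K),
    TopologicalSpace.induced (fun f : X M a => φ f.1) (inferInstance : TopologicalSpace ℝ)

/-- change of the base point: from `X M a` to `Lip₀(M)` with base point `b` -/
def toL {M : Type} [MetricSpace M] (a b : M) (f : X M a) : Lip0 M b :=
  ⟨fun x => f.1 x - f.1 b, by
    obtain ⟨K, hK⟩ := f.2.1
    refine ⟨⟨K, ?_⟩, sub_self _⟩
    apply LipschitzWith.of_dist_le_mul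
    intro x y
    have h := hK.dist_le_mul x y
    rw [Real.dist_eq] at h ⊢
    rwa [sub_sub_sub_cancel_right]⟩

/-- change of the base point: from `Lip₀(M)` with base point `b` to `X M a` -/
def ofL {M : Type} [MetricSpace M] (a b : M) (f : Lip0 M b) : X M a :=
  ⟨fun x => f.1 x - f.1 a, by
    obtain ⟨K, hK⟩ := f.2.1
    refine ⟨⟨K, ?_⟩, sub_self _⟩
    apply LipschitzWith.of_dist_le_mul
    intro x y
    have h := hK.dist_le_mul x y
    rw [Real.dist_eq] at h ⊢
    rwa [sub_sub_sub_cancel_right]⟩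

theorem ofL_toL {M : Type} [MetricSpace M] (a b : M) (f : X M a) : ofL a b (toL a b f) = f := by
  apply Subtype.ext
  funext x
  change (f.1 x - f.1 b) - (f.1 a - f.1 b) = f.1 x
  rw [f.2.2]
  ring

theorem toL_ofL {M : Type} [MetricSpace M] (a b : M) (f : Lip0 M b) :
    toL a b (ofL a b f) = f := by
  apply Subtype.ext
  funext x
  change (f.1 x - f.1 a) - (f.1 b - f.1 a) = f.1 x
  rw [f.2.2]
  ring

theorem norm_toL_le {M : Type} [MetricSpace M] (a b : M) (f : X M a) (K : NNReal)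
    (hK : LipschitzWith K f.1) : ‖toL a b f‖ ≤ K := by
  apply norm_le' _ _ K.2
  intro x y
  have h := hK.dist_le_mul x y
  rw [Real.dist_eq] at h
  change |(f.1 x - f.1 b) - (f.1 y - f.1 b)| ≤ _
  rwa [sub_sub_sub_cancel_right]

/-- `toL` into the weak topology -/
def toW {M : Type} [MetricSpace M] (a b : M) (f : X M a) : WeakSpace ℝ (Lip0 M b) := toL a b f

/-- `ofL` from the weak topology -/
def ofW {M : Type} [MetricSpace M] (a b : M) (f : WeakSpace ℝ (Lip0 M b)) : X M a := ofL a b f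

theorem ofW_toW {M : Type} [MetricSpace M] (a b : M) (f : X M a) : ofW a b (toW a b f) = f :=
  ofL_toL a b f

theorem toW_ofW {M : Type} [MetricSpace M] (a b : M) (f : WeakSpace ℝ (Lip0 M b)) :
    toW a b (ofW a b f) = f := toL_ofL a b f

/-- `X M a → Lip₀(M)_w` is continuous -/
theorem continuous_toW {M : Type} [MetricSpace M] (a b : M) :
    @Continuous (X M a) (WeakSpace ℝ (Lip0 M b)) (tX M a) _ (toW a b) := by
  refine @WeakBilin.continuous_of_continuous_eval (X M a) ℝ (Lip0 M b) _ _ _ _ _ _ _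
    (topDualPairing ℝ (Lip0 M b)).flip (tX M a) (toW a b) ?_
  intro ψ
  let ℓ : lipSub M a →ₗ[ℝ] ℝ :=
    { toFun := fun f => ψ (toL a b ⟨f.1, f.2⟩)
      map_add' := by
        intro f g
        rw [← map_add]
        congr 1
        apply Subtype.ext
        funext x
        change (f.1 x + g.1 x) - (f.1 b + g.1 b) = (f.1 x - f.1 b) + (g.1 x - g.1 b)
        ring
      map_smul' := by
        intro c f
        rw [RingHom.id_apply, ← map_smul]
        congr 1
        apply Subtype.ext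
        funext x
        change c * f.1 x - c * f.1 b = c * (f.1 x - f.1 b)
        ring }
  obtain ⟨φ, hφ⟩ := ℓ.exists_extend
  have hφ2 : ∀ f : X M a, φ f.1 = ψ (toL a b f) := by
    intro f
    exact LinearMap.congr_fun hφ (⟨f.1, f.2⟩ : lipSub M a)
  have hadm : ∃ C : ℝ, ∀ f : M → ℝ, f a = 0 → ∀ K : NNReal, LipschitzWith K f →
      |φ f| ≤ C * K := by
    refine ⟨‖ψ‖, ?_⟩
    intro f hf K hK
    have h1 := hφ2 ⟨f, ⟨K, hK⟩, hf⟩
    change φ f = _ at h1
    rw [h1, ← Real.norm_eq_abs]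
    exact (ψ.le_opNorm _).trans (mul_le_mul_of_nonneg_left
      (norm_toL_le a b ⟨f, ⟨K, hK⟩, hf⟩ K hK) (norm_nonneg _))
  have h2 : @Continuous (X M a) ℝ (tX M a) _ (fun f => φ f.1) := by
    apply continuous_iInf_dom (i := φ)
    apply continuous_iInf_dom (i := hadm)
    exact continuous_induced_dom
  have h3 : (fun f : X M a => (topDualPairing ℝ (Lip0 M b)).flip (toW a b f) ψ) =
      fun f => φ f.1 := by
    funext f
    exact (hφ2 f).symm
  exact h3 ▸ h2

/-- `Lip₀(M)_w → X M a` is continuous -/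
theorem continuous_ofW {M : Type} [MetricSpace M] (a b : M) :
    @Continuous (WeakSpace ℝ (Lip0 M b)) (X M a) _ (tX M a) (ofW a b) := by
  unfold tX
  rw [continuous_iInf_rng]
  intro φ
  rw [continuous_iInf_rng]
  rintro ⟨C, hC⟩
  rw [continuous_induced_rng]
  let ℓ : Lip0 M b →ₗ[ℝ] ℝ :=
    { toFun := fun f => φ (ofL a b f).1
      map_add' := by
        intro f g
        rw [← map_add]
        congr 1
        funext x
        change (f.1 x + g.1 x) - (f.1 a + g.1 a) = (f.1 x - f.1 a) + (g.1 x - g.1 a)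
        ring
      map_smul' := by
        intro c f
        rw [RingHom.id_apply, ← map_smul]
        congr 1
        funext x
        change c * f.1 x - c * f.1 a = c * (f.1 x - f.1 a)
        ring }
  let ψ : Lip0 M b →L[ℝ] ℝ := ℓ.mkContinuous C (by
    intro f
    rw [Real.norm_eq_abs]
    have hK : LipschitzWith ⟨‖f‖, norm_nonneg f⟩ (ofL a b f).1 := by
      apply LipschitzWith.of_dist_le_mul
      intro x y
      rw [Real.dist_eq]
      change |(f.1 x - f.1 a) - (f.1 y - f.1 a)| ≤ _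
      rw [sub_sub_sub_cancel_right]
      exact le_norm f x y
    exact hC _ (ofL a b f).2.2 _ hK)
  exact WeakBilin.eval_continuous (topDualPairing ℝ (Lip0 M b)).flip ψ

theorem mk_finset_real : Cardinal.mk (Finset ℝ) = Cardinal.continuum := by
  rw [Cardinal.mk_finset_of_infinite, Cardinal.mk_real]

theorem density_of_all {M : Type} [MetricSpace M] (h : ∀ S : Set M, Dense S → S = Set.univ)
    (a : M ≃ Finset ℝ) : density M = Cardinal.continuum := by
  have h1 : {c | ∃ S : Set M, Dense S ∧ Cardinal.mk S = c} = {Cardinal.continuum} := by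
    ext c
    constructor
    · rintro ⟨S, hS, rfl⟩
      rw [h S hS, Cardinal.mk_univ, Cardinal.mk_congr a, mk_finset_real]
      rfl
    · rintro rfl
      refine ⟨Set.univ, dense_univ, ?_⟩
      rw [Cardinal.mk_univ, Cardinal.mk_congr a, mk_finset_real]
  unfold density
  rw [h1, csInf_singleton]

/-- Two metric spaces with the same density (the continuum) whose Banach spaces of Lipschitz
functions are not homeomorphic in their weak topologies: the finite sets of real numbers with the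
metric `(number of elements of the symmetric difference) ^ (1 / 4)`, and the same set with the
discrete metric. -/
theorem result : ∃ (M N : Type) (_ : MetricSpace M) (_ : MetricSpace N)
    (s : M ≃ Finset ℝ) (_ : N ≃ Finset ℝ),
    (∀ x y : M, dist x y = ((symmDiff (s x) (s y)).card : ℝ) ^ (1 / 4 : ℝ)) ∧
    (∀ x y : N, x ≠ y → dist x y = 1) ∧
    density M = Cardinal.continuum ∧ density N = Cardinal.continuum ∧
    ∀ (x₀ : M) (y₀ : N), IsEmpty (WeakSpace ℝ (Lip0 M x₀) ≃ₜ WeakSpace ℝ (Lip0 N y₀)) := by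
  refine ⟨MM, NN, inferInstance, inferInstance, ⟨MM.s, MM.mk, fun _ => rfl, fun _ => rfl⟩,
    ⟨NN.s, NN.mk, fun _ => rfl, fun _ => rfl⟩, ?_, fun x y h => distNN_ne h,
    density_of_all Homeo.dense_univM ⟨MM.s, MM.mk, fun _ => rfl, fun _ => rfl⟩,
    density_of_all Homeo.dense_univN ⟨NN.s, NN.mk, fun _ => rfl, fun _ => rfl⟩, ?_⟩
  · intro x y
    rw [distMM]
    change rt _ = _
    unfold rt
    rw [Real.sqrt_eq_rpow, Real.sqrt_eq_rpow, ← Real.rpow_mul (Nat.cast_nonneg _)]
    norm_num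
  · intro x₀ y₀
    refine ⟨fun h => ?_⟩
    let e : X MM ⟨∅⟩ ≃ X NN ⟨∅⟩ :=
      { toFun := fun f => ofW ⟨∅⟩ y₀ (h (toW ⟨∅⟩ x₀ f))
        invFun := fun g => ofW ⟨∅⟩ x₀ (h.symm (toW ⟨∅⟩ y₀ g))
        left_inv := by
          intro f
          change ofW ⟨∅⟩ x₀ (h.symm (toW ⟨∅⟩ y₀ (ofW ⟨∅⟩ y₀ (h (toW ⟨∅⟩ x₀ f))))) = f
          rw [toW_ofW, h.symm_apply_apply, ofW_toW]
        right_inv := by
          intro g
          change ofW ⟨∅⟩ y₀ (h (toW ⟨∅⟩ x₀ (ofW ⟨∅⟩ x₀ (h.symm (toW ⟨∅⟩ y₀ g))))) = g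
          rw [toW_ofW, h.apply_symm_apply, ofW_toW] }
    refine Homeo.main e ?_ ?_
    · exact @Continuous.comp (X MM ⟨∅⟩) (WeakSpace ℝ (Lip0 NN y₀)) (X NN ⟨∅⟩) (tX MM ⟨∅⟩) _
        (tX NN ⟨∅⟩) _ _ (continuous_ofW ⟨∅⟩ y₀)
        (@Continuous.comp (X MM ⟨∅⟩) (WeakSpace ℝ (Lip0 MM x₀)) (WeakSpace ℝ (Lip0 NN y₀))
          (tX MM ⟨∅⟩) _ _ _ _ h.continuous (continuous_toW ⟨∅⟩ x₀))
    · exact @Continuous.comp (X NN ⟨∅⟩) (WeakSpace ℝ (Lip0 MM x₀)) (X MM ⟨∅⟩) (tX NN ⟨∅⟩) _
        (tX MM ⟨∅⟩) _ _ (continuous_ofW ⟨∅⟩ x₀)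
        (@Continuous.comp (X NN ⟨∅⟩) (WeakSpace ℝ (Lip0 NN y₀)) (WeakSpace ℝ (Lip0 MM x₀))
          (tX NN ⟨∅⟩) _ _ _ _ h.symm.continuous (continuous_toW ⟨∅⟩ y₀))

end Pool.Agent.Results.MP_a56222_an.SameDensityWeakLip
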